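import Pool.Agent.Helper3.CK.Stm

/-!
# CK module A3: random unitaries of the block algebra suffice (helper64)
-/

set_option autoImplicit false

namespace Pool.Agent.Helper64.CK

open Matrix Finset
open scoped ComplexOrder
open Pool.Agent.W661.RC Pool.Agent.W683.RC Pool.Agent.N303.KQ
open Pool.Agent.Helper3.CK

noncomputable section

variable {d : ℕ} {O : Out d}

theorem kp_smul' {Y : Type} (J : Y → Mt d) (c : ℂ) (x : Mt d) : kp J (c • x) = c • kp J x := by
  funext z; simp [kp, ip_smul_right]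

theorem JJ_smul' {Y : Type} [Fintype Y] (J : Y → Mt d) (c : ℂ) (ξ : Y → ℂ) : JJ J (c • ξ) = c • JJ J ξ := by
  simp [Pool.Agent.N303.KQ.JJ, smul_sum, smul_smul]

theorem EB_add (x y : Mt d) : EB O (x + y) = EB O x + EB O y := by
  rw [EB, kp_add, JJ_add]; rfl

theorem EB_smul (c : ℂ) (x : Mt d) : EB O (c • x) = c • EB O x := by
  rw [EB, kp_smul', JJ_smul']; rfl

theorem EB_mem (x : Mt d) : EB O x ∈ O.alg := JJ_mem _

/-- the defect of the conjugation by `V` -/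
def Rm (O : Out d) (V x : Mt d) : Mt d := V * x * Vᴴ - EB O (V * x * Vᴴ)

theorem Rm_add (V x y : Mt d) : Rm O V (x + y) = Rm O V x + Rm O V y := by
  rw [Rm, Matrix.mul_add, Matrix.add_mul, EB_add]
  unfold Rm
  abel

theorem Rm_smul (V : Mt d) (c : ℂ) (x : Mt d) : Rm O V (c • x) = c • Rm O V x := by
  rw [Rm, Matrix.mul_smul, Matrix.smul_mul, EB_smul, ← smul_sub]
  rfl

theorem Rm_zero (V : Mt d) : Rm O V 0 = 0 := by
  have := Rm_smul (O := O) V 0 0
  simpa using this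

theorem Rm_sum {ι : Type} (s : Finset ι) (V : Mt d) (f : ι → Mt d) :
    Rm O V (∑ i ∈ s, f i) = ∑ i ∈ s, Rm O V (f i) := by
  classical
  induction s using Finset.induction_on with
  | empty => simp [Rm_zero]
  | insert a s ha ih => rw [sum_insert ha, sum_insert ha, Rm_add, ih]

/-- the matrix of the defect -/
def KM (O : Out d) (V : Mt d) : Matrix (Fin d × Fin d) (Yx O) ℂ := fun p y => Rm O V (Jb O y) p.1 p.2

theorem nsq_KM (V : Mt d) (ξ : Yx O → ℂ) : nsq (KM O V *ᵥ ξ) = hs (Rm O V (JJ (Jb O) ξ)) := by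
  rw [nsq, hs, Fintype.sum_prod_type]
  refine sum_congr rfl fun i _ => sum_congr rfl fun j _ => ?_
  congr 2
  rw [Pool.Agent.N303.KQ.JJ, Rm_sum, Matrix.sum_apply, mulVec, dotProduct]
  refine sum_congr rfl fun y _ => ?_
  rw [Rm_smul, Matrix.smul_apply, smul_eq_mul, mul_comm]
  rfl

/-- left multiplication by `a` on the coordinates -/
def AM (O : Out d) (a : Mt d) : Matrix (Yx O) (Yx O) ℂ := fun y' y => kp (Jb O) (a * Jb O y) y'

theorem AM_mulVec (a : Mt d) (ξ : Yx O → ℂ) : AM O a *ᵥ ξ = kp (Jb O) (a * JJ (Jb O) ξ) := by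
  funext y'
  simp only [mulVec, dotProduct, AM, kp, Pool.Agent.N303.KQ.JJ, Matrix.mul_sum, ip_sum_right]
  refine sum_congr rfl fun y _ => ?_
  rw [Matrix.mul_smul, ip_smul_right, mul_comm]

theorem AM_contr {a : Mt d} (ha1 : Le (aᴴ * a) 1) : Le ((AM O a)ᴴ * AM O a) 1 := by
  refine contr_of_nsq _ fun ξ => ?_
  rw [AM_mulVec]
  refine (nsq_kp_le onf_Jb _).trans ?_
  rw [← hs_JJ (onf_Jb (O := O))]
  exact hs_mul_le ha1 _

theorem AM_comm {a : Mt d} (ha : a ∈ O.alg) : AM O a * Fd O = Fd O * AM O a := by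
  obtain ⟨α, hα, rfl⟩ := mem_alg.1 ha
  ext y' y
  rw [Fd, mul_diagonal, diagonal_mul]
  have h1 : AM O (Am O α) y' y = ((√(O.l (O.c y.1.1) : ℝ) : ℝ) : ℂ)⁻¹ *
      cf O (α * eu O y.1.1 y.1.2) y' := by
    unfold AM
    rw [Jb, Matrix.mul_smul, Am_mul hα, kp_smul', kp_Am (hα.mul (BD_eu y.2.1)), Pi.smul_apply, smul_eq_mul]
  by_cases h : O.c y'.1.1 = O.c y.1.1
  · have h2 : fw O y' = fw O y := by
      unfold fw mc
      rw [h]
    rw [h2, mul_comm]
  · have h3 : (α * eu O y.1.1 y.1.2) y'.1.1 y'.1.2 = 0 := by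
      rw [Matrix.mul_apply]
      refine sum_eq_zero fun c _ => ?_
      simp only [eu]
      by_cases hc : c = y.1.1 ∧ y'.1.2 = y.1.2
      · rw [hc.1, hα _ _ h, zero_mul]
      · rw [if_neg hc, mul_zero]
    rw [h1, cf, h3]
    simp

theorem W2_AM_le {a : Mt d} (ha : a ∈ O.alg) (ha1 : Le (aᴴ * a) 1) (V : Mt d) :
    W2 O (KM O V * AM O a) ≤ W2 O (KM O V) := by
  rw [W2_eq, W2_eq, Matrix.mul_assoc, AM_comm ha, ← Matrix.mul_assoc]
  exact hs_mul_le_right (AM_contr ha1) _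

theorem av_mul_conj (ω : Om O) : av O ω * (av O ω)ᴴ = 1 := mul_eq_one_comm.1 (av_conj_mul ω)

theorem vv_mul_conj (ω : Om O) : vv O ω * (vv O ω)ᴴ = pO O := by
  rw [vv, Am_conjTranspose, Am_mul (BD_av ω), av_mul_conj, pO, Am, Bm_one, Matrix.mul_one]

theorem alg_mul_pO {a : Mt d} (ha : a ∈ O.alg) : a * pO O = a := by
  have h := pO_mul_alg (alg_conjTranspose ha)
  have h2 := congrArg Matrix.conjTranspose h
  rw [Matrix.conjTranspose_mul, Matrix.conjTranspose_conjTranspose, pO_pr.1] at h2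
  exact h2

theorem sum_Rm {V : Mt d} (hV : Vᴴ * V = 1) :
    ∑ ω : Om O, hs (Rm O V (vv O ω)) = Fintype.card (Om O) * (D0 O - W2 O (TT O V)) := by
  rw [mul_sub, ← sum_nsq', ← card_univ, ← nsmul_eq_mul, ← sum_const, ← sum_sub_distrib]
  refine sum_congr rfl fun ω _ => ?_
  have h := hs_eq_kp (onf_Jb (O := O)) (V * vv O ω * Vᴴ)
  rw [hs_mul_unit (unit_conj hV), hs_unit_mul hV, hs_vv] at h
  rw [TT_xv]
  unfold Rm EB
  linarith

theorem s_a3 (hEB : S_EB) : S_A3 := by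
  intro d O V δ hV hδ hW
  obtain ⟨-, hcontr, -, -, -, -, -⟩ := hEB d O
  intro a ha ha1
  -- a good test element
  have hsum1 := sum_Rm (O := O) hV
  have hW2 : W2 O (KM O V) = D0 O - W2 O (TT O V) := by
    have h1 := sum_nsq' (O := O) (KM O V)
    have h2 : ∀ ω : Om O, nsq (KM O V *ᵥ xv O ω) = hs (Rm O V (vv O ω)) := by
      intro ω
      rw [nsq_KM, JJ_xv]
    simp only [h2] at h1
    rw [hsum1] at h1
    exact (mul_left_cancel₀ card_Om_pos.ne' h1).symm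
  have hsum2 : ∑ ω : Om O, hs (Rm O V (a * vv O ω)) = Fintype.card (Om O) * W2 O (KM O V * AM O a) := by
    rw [← sum_nsq']
    refine sum_congr rfl fun ω _ => ?_
    rw [← mulVec_mulVec, AM_mulVec, nsq_KM, JJ_xv, JJ_kp_alg (alg_mul ha (vv_mem ω))]
  have hle := W2_AM_le ha ha1 V
  have hex : ∃ ω : Om O, hs (Rm O V (a * vv O ω)) + hs (Rm O V (vv O ω)) ≤ 2 * (δ * d) := by
    by_contra hcon
    push Not at hcon
    have h1 : ∑ _ω : Om O, (2 * (δ * d)) < ∑ ω : Om O, (hs (Rm O V (a * vv O ω)) + hs (Rm O V (vv O ω))) := by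
      refine sum_lt_sum_of_nonempty ?_ fun ω _ => hcon ω
      exact ⟨(fun _ => true, ⟨1, fun _ => rfl⟩), mem_univ _⟩
    rw [sum_add_distrib, hsum1, hsum2, sum_const, card_univ, nsmul_eq_mul] at h1
    have h2 : (Fintype.card (Om O) : ℝ) * W2 O (KM O V * AM O a) ≤ Fintype.card (Om O) * (δ * d) :=
      mul_le_mul_of_nonneg_left (by linarith) card_Om_pos.le
    have h3 : (Fintype.card (Om O) : ℝ) * (D0 O - W2 O (TT O V)) ≤ Fintype.card (Om O) * (δ * d) :=
      mul_le_mul_of_nonneg_left (by linarith) card_Om_pos.le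
    linarith
  obtain ⟨ω, hω⟩ := hex
  set x : Mt d := V * (a * vv O ω) * Vᴴ with hx
  set y : Mt d := V * vv O ω * Vᴴ with hy
  have hRx : hs (x - EB O x) = hs (Rm O V (a * vv O ω)) := rfl
  have hRy : hs (y - EB O y) = hs (Rm O V (vv O ω)) := rfl
  have hVV : V * Vᴴ = 1 := mul_eq_one_comm.1 hV
  -- contractions
  have hVc : Le (Vᴴᴴ * Vᴴ) 1 := by
    rw [Matrix.conjTranspose_conjTranspose, hVV]
    exact Le_refl _
  have hVc' : Le (Vᴴ * V) 1 := by
    rw [hV]; exact Le_refl _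
  have contr_mul : ∀ {p q : Mt d}, Le (pᴴ * p) 1 → Le (qᴴ * q) 1 → Le ((p * q)ᴴ * (p * q)) 1 := by
    intro p q hp hq
    have h1 := Le_conj hp q
    rw [Matrix.mul_one] at h1
    have e : (p * q)ᴴ * (p * q) = qᴴ * (pᴴ * p) * q := by
      rw [Matrix.conjTranspose_mul]
      simp only [Matrix.mul_assoc]
    rw [e]
    exact Le_trans h1 hq
  have hxc : Le (xᴴ * x) 1 := contr_mul (contr_mul hVc' (contr_mul ha1 (vv_contr ω))) hVc
  have hyc : Le (yᴴ * y) 1 := contr_mul (contr_mul hVc' (vv_contr ω)) hVc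
  have hyc' : Le (y * yᴴ) 1 := contr_conj hyc
  refine ⟨EB O x * (EB O y)ᴴ, alg_mul (EB_mem x) (alg_conjTranspose (EB_mem y)), ?_⟩
  have e1 : V * a * Vᴴ = x * yᴴ := by
    rw [hx, hy, Matrix.conjTranspose_mul, Matrix.conjTranspose_mul, Matrix.conjTranspose_conjTranspose]
    calc V * a * Vᴴ = V * (a * pO O) * Vᴴ := by rw [alg_mul_pO ha]
      _ = V * (a * (vv O ω * (vv O ω)ᴴ)) * Vᴴ := by rw [vv_mul_conj]
      _ = V * (a * vv O ω) * (Vᴴ * V) * (vv O ω)ᴴ * Vᴴ := by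
        rw [hV, Matrix.mul_one]
        simp only [Matrix.mul_assoc]
      _ = V * (a * vv O ω) * Vᴴ * (V * ((vv O ω)ᴴ * Vᴴ)) := by simp only [Matrix.mul_assoc]
  have e2 : x * yᴴ - EB O x * (EB O y)ᴴ = (x - EB O x) * yᴴ + EB O x * (y - EB O y)ᴴ := by
    rw [Matrix.conjTranspose_sub, Matrix.sub_mul, Matrix.mul_sub]
    abel
  rw [e1, e2]
  refine (hs_add_le _ _).trans ?_
  have h1 : hs ((x - EB O x) * yᴴ) ≤ hs (x - EB O x) := by
    refine hs_mul_le_right' ?_ _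
    rw [Matrix.conjTranspose_conjTranspose]
    exact hyc
  have h2 : hs (EB O x * (y - EB O y)ᴴ) ≤ hs (y - EB O y) := by
    refine (hs_mul_le (hcontr x hxc) _).trans ?_
    rw [hs_conjTranspose]
  rw [hRx] at h1
  rw [hRy] at h2
  linarith

end

end Pool.Agent.Helper64.CK
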